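import Pool.Agent.Helper50.MP.ALA

/-!
# MP_bde085_nt, module AL: the main lemma of Atkin and Lehner
-/

set_option autoImplicit false

namespace Pool.Agent.Helper96.MP

open Complex Filter Topology
open scoped MatrixGroups

/-- a lift of a residue class -/
noncomputable def al_lf (hS : ST_SURJ) {M : ℕ} (hM : 1 ≤ M)
    (x : Matrix.SpecialLinearGroup (Fin 2) (ZMod M)) : SL(2, ℤ) := (al_lift hS hM x).choose

theorem al_lf_spec (hS : ST_SURJ) {M : ℕ} (hM : 1 ≤ M)
    (x : Matrix.SpecialLinearGroup (Fin 2) (ZMod M)) : al_red M (al_lf hS hM x) = x :=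
  (al_lift hS hM x).choose_spec

/-- the action of `SL₂(ℤ/M)` -/
noncomputable def al_rho (hS : ST_SURJ) {M : ℕ} (hM : 1 ≤ M) :
    Representation ℂ (Matrix.SpecialLinearGroup (Fin 2) (ZMod M)) (al_V M) where
  toFun x :=
    { toFun := fun f => ⟨al_sl (al_lf hS hM x⁻¹) f.1, al_sl_mem f.2 _⟩
      map_add' := by
        intro f f'
        refine Subtype.ext ?_
        funext z
        show al_sl _ (f.1 + f'.1) z = al_sl _ f.1 z + al_sl _ f'.1 z
        by_cases hz : 0 < z.im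
        · rw [al_sl_pos _ _ hz, al_sl_pos _ _ hz, al_sl_pos _ _ hz, Pi.add_apply, mul_add]
        · rw [al_sl_neg _ _ hz, al_sl_neg _ _ hz, al_sl_neg _ _ hz, add_zero]
      map_smul' := by
        intro c f
        refine Subtype.ext ?_
        funext z
        show al_sl _ (c • f.1) z = c * al_sl _ f.1 z
        by_cases hz : 0 < z.im
        · rw [al_sl_pos _ _ hz, al_sl_pos _ _ hz, Pi.smul_apply, smul_eq_mul]
          ring
        · rw [al_sl_neg _ _ hz, al_sl_neg _ _ hz, mul_zero] }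
  map_one' := by
    refine LinearMap.ext fun f => Subtype.ext ?_
    have e1 : al_red M (al_lf hS hM 1⁻¹) = al_red M 1 := by
      rw [al_lf_spec, map_one, inv_one]
    show al_sl (al_lf hS hM 1⁻¹) f.1 = f.1
    rw [al_sl_congr f.2 e1]
    exact (al_mem_V.1 f.2).2.2.1 1 (map_one _)
  map_mul' := by
    intro x y
    refine LinearMap.ext fun f => Subtype.ext ?_
    have e1 : al_red M (al_lf hS hM (x * y)⁻¹) =
        al_red M (al_lf hS hM y⁻¹ * al_lf hS hM x⁻¹) := by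
      rw [map_mul, al_lf_spec, al_lf_spec, al_lf_spec, mul_inv_rev]
    show al_sl (al_lf hS hM (x * y)⁻¹) f.1 =
      al_sl (al_lf hS hM x⁻¹) (al_sl (al_lf hS hM y⁻¹) f.1)
    rw [al_sl_congr f.2 e1, al_sl_mul]

theorem al_rho_apply (hS : ST_SURJ) {M : ℕ} (hM : 1 ≤ M)
    {x : Matrix.SpecialLinearGroup (Fin 2) (ZMod M)} {g : SL(2, ℤ)} (hg : al_red M g = x⁻¹)
    (f : al_V M) : (al_rho hS hM x f).1 = al_sl g f.1 := by
  show al_sl (al_lf hS hM x⁻¹) f.1 = al_sl g f.1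
  refine al_sl_congr f.2 ?_
  rw [al_lf_spec, hg]

/-! ## The function attached to a sequence -/

open Classical in
/-- `∑ c_n e(n z / M)`, extended by zero -/
noncomputable def al_G (M : ℕ) (c : ℕ → ℂ) (z : ℂ) : ℂ := if 0 < z.im then qs c (z / M) else 0

theorem al_G_pos (M : ℕ) (c : ℕ → ℂ) {z : ℂ} (hz : 0 < z.im) : al_G M c z = qs c (z / M) :=
  if_pos hz

theorem al_G_neg (M : ℕ) (c : ℕ → ℂ) {z : ℂ} (hz : ¬ 0 < z.im) : al_G M c z = 0 := if_neg hz

theorem al_div_im (M : ℕ) (z : ℂ) : (z / (M : ℂ)).im = z.im / M := by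
  rw [show (M : ℂ) = ((M : ℝ) : ℂ) by push_cast; rfl, Complex.div_ofReal_im]

theorem al_div_pos {M : ℕ} (hM : 1 ≤ M) {z : ℂ} (hz : 0 < z.im) : 0 < (z / (M : ℂ)).im := by
  rw [al_div_im M]
  have : (0 : ℝ) < M := by exact_mod_cast hM
  positivity

theorem al_G_sl {M : ℕ} {b : ℕ → ℂ} (hM : 1 ≤ M) (hb : Cusp M b) (g : SL(2, ℤ))
    (hg : (M : ℤ) ∣ g 0 1) : al_sl g (al_G M b) = al_G M b := by
  funext z
  by_cases hz : 0 < z.im
  · have hM0 : (M : ℂ) ≠ 0 := by
      have : M ≠ 0 := by omega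
      exact_mod_cast this
    obtain ⟨q, hq⟩ := hg
    have hj := al_jj_ne g hz
    rw [al_sl_pos _ _ hz, al_G_pos _ _ hz, al_G_pos _ _ (al_mob_pos g hz)]
    have hdet := al_det g
    have h1 := hb.inv (z / M) (al_div_pos hM hz) (g 0 0) q (g 1 0 * M) (g 1 1)
      (by rw [hq] at hdet; linear_combination hdet) ⟨g 1 0, by ring⟩
    have e0 : (((g 1 0 * M : ℤ) : ℂ)) * (z / M) + ((g 1 1 : ℤ) : ℂ) = jj g z := by
      unfold jj
      push_cast
      field_simp
    have e1 : (((g 0 0 : ℤ) : ℂ) * (z / M) + (q : ℂ)) / jj g z = mob g z / M := by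
      have e2 : mob g z = (((g 0 0 : ℤ) : ℂ) * z + ((g 0 1 : ℤ) : ℂ)) / jj g z := rfl
      rw [e2, hq]
      push_cast
      field_simp
    rw [e0, e1] at h1
    rw [h1]
    field_simp
  · rw [al_sl_neg _ _ hz, al_G_neg _ _ hz]

theorem al_G_mem {M : ℕ} {b : ℕ → ℂ} (h4 : ST_QDIF) (hM : 1 ≤ M) (hb : Cusp M b) :
    al_G M b ∈ al_V M := by
  have hM0 : (0 : ℝ) < M := by exact_mod_cast hM
  obtain ⟨-, hd, -⟩ := h4 M b hM hb
  obtain ⟨B, hB⟩ := hb.bdd
  refine al_mem_V.2 ⟨fun z hz => al_G_neg _ _ hz, ?_, fun g hg => ?_, M * B, fun z hz => ?_⟩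
  · intro z hz
    have hz' : 0 < z.im := hz
    have h1 : DifferentiableAt ℂ (qs b) (z / M) :=
      (hd _ (al_div_pos hM hz')).differentiableAt (al_isOpen.mem_nhds (al_div_pos hM hz'))
    have h2 : DifferentiableAt ℂ (fun w : ℂ => w / (M : ℂ)) z := by fun_prop
    have h3 : DifferentiableAt ℂ ((qs b) ∘ fun w : ℂ => w / (M : ℂ)) z := h1.comp z h2
    refine DifferentiableAt.differentiableWithinAt (h3.congr_of_eventuallyEq ?_)
    filter_upwards [al_isOpen.mem_nhds hz] with w hw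
    exact al_G_pos _ _ hw
  · refine al_G_sl hM hb g ?_
    have h1 : al_red M g 0 1 = (1 : Matrix.SpecialLinearGroup (Fin 2) (ZMod M)) 0 1 := by rw [hg]
    rw [al_red_apply] at h1
    rw [← ZMod.intCast_zmod_eq_zero_iff_dvd]
    rw [h1]
    simp
  · have hz' : 0 < z.im := hz
    have h1 := hB (z / M) (al_div_pos hM hz')
    rw [al_div_im M] at h1
    rw [al_G_pos _ _ hz']
    calc z.im * ‖qs b (z / M)‖ = M * (z.im / M * ‖qs b (z / M)‖) := by
          field_simp
      _ ≤ M * B := mul_le_mul_of_nonneg_left h1 hM0.le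

/-! ## Averages over the unipotent subgroups -/

/-- the translation `z ↦ z + x` -/
def al_T (x : ℤ) : SL(2, ℤ) := ⟨!![1, x; 0, 1], by rw [Matrix.det_fin_two]; simp⟩

theorem al_T_inv (x : ℤ) : (al_T x)⁻¹ = al_T (-x) := by
  rw [inv_eq_iff_mul_eq_one]
  ext i j
  rw [al_mul_apply]
  fin_cases i <;> fin_cases j <;> simp [al_T]

theorem al_T_sl {x : ℤ} (f : ℂ → ℂ) {z : ℂ} (hz : 0 < z.im) :
    al_sl (al_T x) f z = f (z + x) := by
  have e1 : jj (al_T x) z = 1 := by
    simp [jj, al_T]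
  have e2 : mob (al_T x) z = z + x := by
    simp [mob, mo, al_T]
  rw [al_sl_pos _ _ hz, e1, e2]
  simp

/-- sums of roots of unity -/
theorem al_root {p : ℕ} (hp : 1 ≤ p) (n : ℕ) :
    ∑ j : Fin p, exp (-(2 * (Real.pi : ℂ) * I * (n : ℂ) * (j.1 : ℂ) / p)) =
      if p ∣ n then (p : ℂ) else 0 := by
  have hp0 : (p : ℂ) ≠ 0 := by
    have : p ≠ 0 := by omega
    exact_mod_cast this
  have e1 : ∀ j : Fin p, exp (-(2 * (Real.pi : ℂ) * I * (n : ℂ) * (j.1 : ℂ) / p)) =
      (exp (-(2 * (Real.pi : ℂ) * I * (n : ℂ) / p))) ^ j.1 := by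
    intro j
    rw [← Complex.exp_nat_mul]
    congr 1
    ring
  rw [Finset.sum_congr rfl fun j _ => e1 j,
    Fin.sum_univ_eq_sum_range (fun j => (exp (-(2 * (Real.pi : ℂ) * I * (n : ℂ) / p))) ^ j) p]
  have hpi : (2 * (Real.pi : ℂ) * I) ≠ 0 := by
    simp [Real.pi_ne_zero]
  split_ifs with h
  · obtain ⟨k, rfl⟩ := h
    have e2 : exp (-(2 * (Real.pi : ℂ) * I * ((p * k : ℕ) : ℂ) / p)) = 1 := by
      rw [Complex.exp_eq_one_iff]
      refine ⟨-(k : ℤ), ?_⟩
      push_cast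
      field_simp
    rw [e2]
    simp
  · have e2 : exp (-(2 * (Real.pi : ℂ) * I * (n : ℂ) / p)) ≠ 1 := by
      intro h1
      rw [Complex.exp_eq_one_iff] at h1
      obtain ⟨m, hm⟩ := h1
      apply h
      have h2 : (n : ℂ) = ((p : ℤ) * (-m) : ℤ) := by
        field_simp at hm
        have h3 : (2 * (Real.pi : ℂ) * I) * ((n : ℂ) + p * m) = 0 := by
          linear_combination (-(2 * (Real.pi : ℂ) * I)) * hm
        have h4 := (mul_eq_zero.1 h3).resolve_left hpi
        push_cast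
        linear_combination h4
      have h5 : (n : ℤ) = (p : ℤ) * (-m) := by exact_mod_cast h2
      have h6 : (p : ℤ) ∣ (n : ℤ) := ⟨-m, h5⟩
      exact_mod_cast h6
    rw [geom_sum_eq e2]
    have e3 : exp (-(2 * (Real.pi : ℂ) * I * (n : ℂ) / p)) ^ p = 1 := by
      rw [← Complex.exp_nat_mul, Complex.exp_eq_one_iff]
      refine ⟨-(n : ℤ), ?_⟩
      push_cast
      field_simp
    rw [e3, sub_self, zero_div]

theorem al_K {M : ℕ} (hM : 1 ≤ M) {p : ℕ} (hp : 1 ≤ p) (hpM : p ∣ M)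
    (K : Subgroup (Matrix.SpecialLinearGroup (Fin 2) (ZMod M)))
    (hK : ∀ g, g ∈ K ↔ ∃ j : ℕ, g 0 0 = 1 ∧ g 1 0 = 0 ∧ g 1 1 = 1 ∧
      g 0 1 = ((j * (M / p) : ℕ) : ZMod M)) :
    ∃ φ : Fin p ≃ K, ∀ j, (φ j).1 = al_red M (al_T ((j.1 * (M / p) : ℕ) : ℤ)) := by
  have h00 : ∀ x : ℤ, al_red M (al_T x) 0 0 = 1 := fun x => by
    rw [al_red_apply]
    simp [al_T]
  have h10 : ∀ x : ℤ, al_red M (al_T x) 1 0 = 0 := fun x => by
    rw [al_red_apply]
    simp [al_T]
  have h11 : ∀ x : ℤ, al_red M (al_T x) 1 1 = 1 := fun x => by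
    rw [al_red_apply]
    simp [al_T]
  have h01 : ∀ x : ℤ, al_red M (al_T x) 0 1 = (x : ZMod M) := fun x => by
    rw [al_red_apply]
    simp [al_T]
  have hmem : ∀ j : ℕ, al_red M (al_T ((j * (M / p) : ℕ) : ℤ)) ∈ K := fun j =>
    (hK _).2 ⟨j, h00 _, h10 _, h11 _, by rw [h01, Int.cast_natCast]⟩
  have hMp : 0 < M / p := Nat.div_pos (Nat.le_of_dvd (by omega) hpM) (by omega)
  have hMp' : p * (M / p) = M := Nat.mul_div_cancel' hpM
  have hbij : Function.Bijective (fun j : Fin p =>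
      (⟨al_red M (al_T ((j.1 * (M / p) : ℕ) : ℤ)), hmem j.1⟩ : K)) := by
    constructor
    · intro j j' hjj
      have h1 := congrArg (fun k : K => k.1 0 1) hjj
      simp only [h01, Int.cast_natCast] at h1
      rw [ZMod.natCast_eq_natCast_iff'] at h1
      have hlt : ∀ i : Fin p, i.1 * (M / p) < M := fun i => by
        calc i.1 * (M / p) < p * (M / p) := Nat.mul_lt_mul_of_pos_right i.2 hMp
          _ = M := hMp'
      rw [Nat.mod_eq_of_lt (hlt j), Nat.mod_eq_of_lt (hlt j')] at h1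
      exact Fin.ext (Nat.eq_of_mul_eq_mul_right hMp h1)
    · rintro ⟨g, hg⟩
      obtain ⟨j, g1, g2, g3, g4⟩ := (hK g).1 hg
      refine ⟨⟨j % p, Nat.mod_lt _ (by omega)⟩, Subtype.ext ?_⟩
      show al_red M (al_T ((j % p * (M / p) : ℕ) : ℤ)) = g
      have e1 : ((j % p * (M / p) : ℕ) : ZMod M) = ((j * (M / p) : ℕ) : ZMod M) := by
        rw [ZMod.natCast_eq_natCast_iff]
        have h2 : j % p * (M / p) ≡ j * (M / p) [MOD p * (M / p)] :=
          Nat.ModEq.mul_right' _ (Nat.mod_modEq _ _)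
        rwa [hMp'] at h2
      ext i i'
      fin_cases i <;> fin_cases i'
      · exact (h00 _).trans g1.symm
      · refine (h01 _).trans ?_
        rw [Int.cast_natCast, e1]
        exact g4.symm
      · exact (h10 _).trans g2.symm
      · exact (h11 _).trans g3.symm
  exact ⟨Equiv.ofBijective _ hbij, fun j => rfl⟩

theorem al_avg (hS : ST_SURJ) {M : ℕ} (hM : 1 ≤ M) {p : ℕ} (hp : 1 ≤ p) (hpM : p ∣ M)
    (K : Subgroup (Matrix.SpecialLinearGroup (Fin 2) (ZMod M)))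
    (hK : ∀ g, g ∈ K ↔ ∃ j : ℕ, g 0 0 = 1 ∧ g 1 0 = 0 ∧ g 1 1 = 1 ∧
      g 0 1 = ((j * (M / p) : ℕ) : ZMod M)) (e : Module.End ℂ (al_V M))
    (he : ∀ w, e w = ((Nat.card K : ℂ))⁻¹ • ∑ᶠ k : K, al_rho hS hM k.1 w)
    (u : al_V M) (c : ℕ → ℂ) (hc : ∀ z : ℂ, 0 < z.im → u.1 z = qs c (z / M))
    (hsum : ∀ τ : ℂ, 0 < τ.im →
      Summable (fun k : ℕ => c k * exp (2 * (Real.pi : ℂ) * I * (k : ℂ) * τ)))
    {z : ℂ} (hz : 0 < z.im) :
    (e u).1 z = qs (fun n => if p ∣ n then c n else 0) (z / M) := by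
  obtain ⟨φ, hφ⟩ := al_K hM hp hpM K hK
  have hp0 : (p : ℂ) ≠ 0 := by
    have : p ≠ 0 := by omega
    exact_mod_cast this
  have hM0 : (M : ℂ) ≠ 0 := by
    have : M ≠ 0 := by omega
    exact_mod_cast this
  have hcard : Nat.card K = p := by
    rw [← Nat.card_congr φ, Nat.card_fin]
  have e1 : (∑ᶠ k : K, al_rho hS hM k.1 u) = ∑ j : Fin p, al_rho hS hM (φ j).1 u := by
    rw [← finsum_comp_equiv φ, finsum_eq_sum_of_fintype]
  have e2 : ∀ j : Fin p, (al_rho hS hM (φ j).1 u).1 z = qs c (z / M - (j.1 : ℂ) / p) := by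
    intro j
    have h1 : al_red M (al_T (-((j.1 * (M / p) : ℕ) : ℤ))) = (φ j).1⁻¹ := by
      rw [hφ, ← map_inv, al_T_inv]
    rw [al_rho_apply hS hM h1, al_T_sl _ hz, hc]
    · congr 1
      rw [Int.cast_neg, Int.cast_natCast, Nat.cast_mul, Nat.cast_div hpM hp0]
      field_simp
      ring
    · simpa using hz
  have e3 : ∀ j : Fin p, HasSum (fun n : ℕ => c n * exp (2 * (Real.pi : ℂ) * I * (n : ℂ) *
      (z / M)) * exp (-(2 * (Real.pi : ℂ) * I * (n : ℂ) * (j.1 : ℂ) / p)))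
      (qs c (z / M - (j.1 : ℂ) / p)) := by
    intro j
    have h1 := (hsum (z / M - (j.1 : ℂ) / p) (by
      have h2 : ((j.1 : ℂ) / p).im = 0 := by
        rw [show ((j.1 : ℂ) / p) = (((j.1 : ℝ) / p : ℝ) : ℂ) by push_cast; rfl, ofReal_im]
      rw [sub_im, h2, sub_zero]
      exact al_div_pos hM hz)).hasSum
    have h2 : (fun n : ℕ => c n * exp (2 * (Real.pi : ℂ) * I * (n : ℂ) *
      (z / M)) * exp (-(2 * (Real.pi : ℂ) * I * (n : ℂ) * (j.1 : ℂ) / p))) =
      fun k : ℕ => c k * exp (2 * (Real.pi : ℂ) * I * (k : ℂ) * (z / M - (j.1 : ℂ) / p)) := by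
      funext n
      rw [mul_assoc, ← Complex.exp_add]
      congr 2
      ring
    rw [h2]
    exact h1
  have e4 := (hasSum_sum fun j (_ : j ∈ (Finset.univ : Finset (Fin p))) => e3 j).mul_left
    ((p : ℂ)⁻¹)
  have e5 : (fun n : ℕ => (p : ℂ)⁻¹ * ∑ j : Fin p, c n * exp (2 * (Real.pi : ℂ) * I * (n : ℂ) *
      (z / M)) * exp (-(2 * (Real.pi : ℂ) * I * (n : ℂ) * (j.1 : ℂ) / p))) =
      fun n : ℕ => (if p ∣ n then c n else 0) * exp (2 * (Real.pi : ℂ) * I * (n : ℂ) *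
      (z / M)) := by
    funext n
    rw [← Finset.mul_sum, al_root hp]
    split_ifs with h
    · field_simp
    · simp
  rw [e5] at e4
  have e6 : (e u).1 z = (p : ℂ)⁻¹ * ∑ j : Fin p, qs c (z / M - (j.1 : ℂ) / p) := by
    rw [he, hcard, e1]
    rw [Submodule.coe_smul, Pi.smul_apply, smul_eq_mul]
    congr 1
    rw [← Finset.sum_congr rfl fun j _ => e2 j]
    rw [Submodule.coe_sum, Finset.sum_apply]
  rw [e6]
  exact e4.tsum_eq.symm

/-! ## The product of the projections -/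

/-- coefficients prime to the members of a list -/
def al_cut (c : ℕ → ℂ) : List ℕ → ℕ → ℂ
  | [], n => c n
  | p :: l, n => if p ∣ n then 0 else al_cut c l n

theorem al_cut_norm (c : ℕ → ℂ) (l : List ℕ) (n : ℕ) : ‖al_cut c l n‖ ≤ ‖c n‖ := by
  induction l with
  | nil => exact le_rfl
  | cons p l ih =>
    rw [al_cut]
    split_ifs
    · rw [norm_zero]
      exact norm_nonneg _
    · exact ih

theorem al_cut_zero (c : ℕ → ℂ) (l : List ℕ) (n : ℕ) (h : c n = 0 ∨ ∃ p ∈ l, p ∣ n) :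
    al_cut c l n = 0 := by
  induction l with
  | nil =>
    rcases h with h | ⟨p, hp, -⟩
    · exact h
    · exact absurd hp List.not_mem_nil
  | cons p l ih =>
    rw [al_cut]
    split_ifs with h1
    · rfl
    · refine ih ?_
      rcases h with h | ⟨q, hq, hqn⟩
      · exact Or.inl h
      · rcases List.mem_cons.1 hq with h2 | h2
        · rw [h2] at hqn
          exact absurd hqn h1
        · exact Or.inr ⟨q, h2, hqn⟩

theorem al_prod (hS : ST_SURJ) {M : ℕ} (hM : 1 ≤ M)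
    (K : {p // p ∈ M.primeFactors} → Subgroup (Matrix.SpecialLinearGroup (Fin 2) (ZMod M)))
    (hK : ∀ i, ∀ g, g ∈ K i ↔ ∃ j : ℕ, g 0 0 = 1 ∧ g 1 0 = 0 ∧ g 1 1 = 1 ∧
      g 0 1 = ((j * (M / i.1) : ℕ) : ZMod M))
    (e : {p // p ∈ M.primeFactors} → Module.End ℂ (al_V M))
    (he : ∀ i, ∀ w, e i w = ((Nat.card (K i) : ℂ))⁻¹ • ∑ᶠ k : K i, al_rho hS hM k.1 w)
    (u : al_V M) (c : ℕ → ℂ) (hc : ∀ z : ℂ, 0 < z.im → u.1 z = qs c (z / M))
    (hsum : ∀ τ : ℂ, 0 < τ.im →
      Summable (fun k : ℕ => c k * exp (2 * (Real.pi : ℂ) * I * (k : ℂ) * τ)))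
    (l : List {p // p ∈ M.primeFactors}) :
    ∀ z : ℂ, 0 < z.im → ((l.map (fun i => (1 : Module.End ℂ (al_V M)) - e i)).prod u).1 z =
      qs (al_cut c (l.map Subtype.val)) (z / M) := by
  have hsum' : ∀ (l : List ℕ) (τ : ℂ), 0 < τ.im → Summable (fun k : ℕ =>
      al_cut c l k * exp (2 * (Real.pi : ℂ) * I * (k : ℂ) * τ)) := by
    intro l τ hτ
    refine Summable.of_norm_bounded (hsum τ hτ).norm fun k => ?_
    rw [norm_mul, norm_mul]
    exact mul_le_mul_of_nonneg_right (al_cut_norm c l k) (norm_nonneg _)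
  induction l with
  | nil => exact hc
  | cons i l ih =>
    intro z hz
    have hi := i.2
    rw [Nat.mem_primeFactors] at hi
    have e1 : ((((i :: l).map (fun i => (1 : Module.End ℂ (al_V M)) - e i)).prod) u) =
        (l.map (fun i => (1 : Module.End ℂ (al_V M)) - e i)).prod u -
          e i ((l.map (fun i => (1 : Module.End ℂ (al_V M)) - e i)).prod u) := by
      rw [List.map_cons, List.prod_cons, Module.End.mul_apply, LinearMap.sub_apply,
        Module.End.one_apply]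
    have e2 := al_avg hS hM hi.1.one_le hi.2.1 (K i) (hK i) (e i) (he i) _ _ ih
      (fun τ hτ => hsum' (l.map Subtype.val) τ hτ) hz
    have e3 := ih z hz
    have hz' := al_div_pos hM hz
    have e5 := (hsum' (l.map Subtype.val) _ hz').hasSum
    have e6 : Summable (fun n : ℕ => (if i.1 ∣ n then al_cut c (l.map Subtype.val) n else 0) *
        exp (2 * (Real.pi : ℂ) * I * (n : ℂ) * (z / M))) := by
      refine Summable.of_norm_bounded (hsum' (l.map Subtype.val) _ hz').norm fun k => ?_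
      split_ifs
      · exact le_rfl
      · rw [zero_mul, norm_zero]
        exact norm_nonneg _
    have e7 := e5.sub e6.hasSum
    have e8 : (fun n : ℕ => al_cut c (l.map Subtype.val) n *
        exp (2 * (Real.pi : ℂ) * I * (n : ℂ) * (z / M)) -
        (if i.1 ∣ n then al_cut c (l.map Subtype.val) n else 0) *
        exp (2 * (Real.pi : ℂ) * I * (n : ℂ) * (z / M))) = fun n : ℕ =>
        al_cut c ((i :: l).map Subtype.val) n *
          exp (2 * (Real.pi : ℂ) * I * (n : ℂ) * (z / M)) := by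
      funext n
      rw [List.map_cons, al_cut, ← sub_mul]
      split_ifs
      · rw [sub_self]
      · rw [sub_zero]
    rw [e8] at e7
    rw [e1]
    refine Eq.trans ?_ e7.tsum_eq.symm
    exact congrArg₂ (fun a b : ℂ => a - b) e3 e2

/-! ## Reindexing -/

theorem al_reindex {p : ℕ} (hp : 1 ≤ p) {M : ℕ} {c : ℕ → ℂ} (hc : Cusp M c) {τ : ℂ}
    (hτ : 0 < τ.im) : HasSum (fun n : ℕ => (if p ∣ n then c (n / p) else 0) *
      exp (2 * (Real.pi : ℂ) * I * (n : ℂ) * τ)) (qs c (p * τ)) := by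
  have hp0 : (0 : ℝ) < p := by exact_mod_cast hp
  have h1 : 0 < ((p : ℂ) * τ).im := by
    simp only [mul_im, natCast_re, natCast_im, zero_mul, add_zero]
    positivity
  have h2 := (hc.sum _ h1).hasSum
  have hinj : Function.Injective (fun k : ℕ => p * k) := fun a b hab =>
    Nat.eq_of_mul_eq_mul_left (by omega) hab
  refine (hinj.hasSum_iff ?_).1 ?_
  · intro n hn
    rw [if_neg, zero_mul]
    rintro ⟨k, rfl⟩
    exact hn ⟨k, rfl⟩
  · have e1 : ((fun n : ℕ => (if p ∣ n then c (n / p) else 0) *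
      exp (2 * (Real.pi : ℂ) * I * (n : ℂ) * τ)) ∘ fun k : ℕ => p * k) =
      fun k : ℕ => c k * exp (2 * (Real.pi : ℂ) * I * (k : ℂ) * (p * τ)) := by
      funext k
      show (if p ∣ p * k then c (p * k / p) else 0) *
        exp (2 * (Real.pi : ℂ) * I * ((p * k : ℕ) : ℂ) * τ) = _
      rw [if_pos (dvd_mul_right _ _), Nat.mul_div_cancel_left _ (by omega)]
      congr 2
      push_cast
      ring
    rw [e1]
    exact h2

/-! ## Level `M / p` -/

theorem al_level (hS : ST_SURJ) (h5 : ST_QEXP) {M : ℕ} (hM : 1 ≤ M) {p : ℕ} (hp : 1 ≤ p)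
    (hpM : p ∣ M) (w : al_V M) (hw : ∀ g : Matrix.SpecialLinearGroup (Fin 2) (ZMod M),
      ((M / p : ℕ) : ZMod M) ∣ g 0 1 → al_rho hS hM g w = w) :
    ∃ c : ℕ → ℂ, Cusp (M / p) c ∧
      ∀ τ : ℂ, 0 < τ.im → qs c τ = w.1 (((M / p : ℕ) : ℂ) * τ) := by
  obtain ⟨m, hm⟩ : ∃ m, m = M / p := ⟨_, rfl⟩
  have hm1 : 1 ≤ m := by
    rw [hm]
    exact Nat.div_pos (Nat.le_of_dvd (by omega) hpM) (by omega)
  rw [← hm] at hw ⊢
  have hmR : (0 : ℝ) < m := by exact_mod_cast hm1
  have hm0 : (m : ℂ) ≠ 0 := by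
    have : m ≠ 0 := by omega
    exact_mod_cast this
  have hpos : ∀ τ : ℂ, 0 < τ.im → 0 < ((m : ℂ) * τ).im := by
    intro τ hτ
    simp only [mul_im, natCast_re, natCast_im, zero_mul, add_zero]
    positivity
  obtain ⟨-, hd, -, B, hB⟩ := al_mem_V.1 w.2
  have hfix : ∀ g : SL(2, ℤ), (m : ℤ) ∣ g 0 1 → al_sl g w.1 = w.1 := by
    intro g hg
    have h1 : (m : ℤ) ∣ (g⁻¹) 0 1 := by
      obtain ⟨k, hk⟩ := hg
      refine ⟨-k, ?_⟩
      have h2 : (g⁻¹) 0 1 = -(g 0 1) := by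
        rw [Matrix.SpecialLinearGroup.SL2_inv_expl]
        rfl
      rw [h2, hk]
      ring
    have h2 := hw (al_red M g⁻¹) (by
      obtain ⟨k, hk⟩ := h1
      refine ⟨(k : ZMod M), ?_⟩
      rw [al_red_apply, hk]
      push_cast
      rfl)
    have h3 : al_red M g = (al_red M g⁻¹)⁻¹ := by
      rw [map_inv, inv_inv]
    rw [← al_rho_apply hS hM h3 w, h2]
  refine h5 m (fun τ => w.1 ((m : ℂ) * τ)) hm1 ?_ ?_ ?_
  · intro z hz
    have hz' : 0 < z.im := hz
    have h1 : DifferentiableAt ℂ w.1 ((m : ℂ) * z) :=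
      (hd _ (hpos z hz')).differentiableAt (al_isOpen.mem_nhds (hpos z hz'))
    have h2 : DifferentiableAt ℂ (fun w : ℂ => (m : ℂ) * w) z := by fun_prop
    have h3 : DifferentiableAt ℂ (w.1 ∘ fun w : ℂ => (m : ℂ) * w) z := h1.comp z h2
    exact DifferentiableAt.differentiableWithinAt h3
  · intro τ hτ p' q r s hg
    have hτ' : 0 < τ.im := hτ
    obtain ⟨hdet, r', hr'⟩ := hg
    have hγ : (!![p', m * q; r', s] : Matrix (Fin 2) (Fin 2) ℤ).det = 1 := by
      rw [Matrix.det_fin_two]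
      show p' * s - m * q * r' = 1
      rw [hr'] at hdet
      linear_combination hdet
    have h1 := (al_sl_pos ⟨!![p', m * q; r', s], hγ⟩ w.1 (hpos τ hτ')).symm.trans
      (congrFun (hfix ⟨!![p', m * q; r', s], hγ⟩ ⟨q, rfl⟩) ((m : ℂ) * τ))
    have hj := al_jj_ne ⟨!![p', m * q; r', s], hγ⟩ (hpos τ hτ')
    have e1 : jj ⟨!![p', m * q; r', s], hγ⟩ ((m : ℂ) * τ) = (r : ℂ) * τ + (s : ℂ) := by
      show ((r' : ℤ) : ℂ) * ((m : ℂ) * τ) + ((s : ℤ) : ℂ) = (r : ℂ) * τ + (s : ℂ)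
      rw [hr']
      push_cast
      ring
    have e2 : mob ⟨!![p', m * q; r', s], hγ⟩ ((m : ℂ) * τ) = (m : ℂ) * mo p' q r s τ := by
      have e3 : mob ⟨!![p', m * q; r', s], hγ⟩ ((m : ℂ) * τ) =
        (((p' : ℤ) : ℂ) * ((m : ℂ) * τ) + ((m * q : ℤ) : ℂ)) /
          jj ⟨!![p', m * q; r', s], hγ⟩ ((m : ℂ) * τ) := rfl
      rw [e3, e1, mo, mul_div_assoc']
      congr 1
      push_cast
      ring
    rw [e1] at hj
    rw [e1, e2] at h1
    show w.1 ((m : ℂ) * mo p' q r s τ) = ((r : ℂ) * τ + (s : ℂ)) ^ 2 * w.1 ((m : ℂ) * τ)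
    rw [← h1]
    field_simp
  · refine ⟨B / m, fun τ hτ => ?_⟩
    have hτ' : 0 < τ.im := hτ
    have h1 := hB _ (hpos τ hτ')
    rw [le_div_iff₀ hmR]
    have e1 : ((m : ℂ) * τ).im = m * τ.im := by
      simp only [mul_im, natCast_re, natCast_im, zero_mul, add_zero]
    rw [e1] at h1
    calc τ.im * ‖w.1 ((m : ℂ) * τ)‖ * m = m * τ.im * ‖w.1 ((m : ℂ) * τ)‖ := by ring
      _ ≤ B := h1

theorem st_AL (h1 : ST_ALG) (h2 : ST_ALC) (h3 : ST_SURJ) (h4 : ST_QDIF) (h5 : ST_QEXP)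
    (h6 : ST_QUNI) : ST_AL := by
  classical
  intro M b hM hb hcop
  have : NeZero M := ⟨by omega⟩
  have : Fintype (Matrix.SpecialLinearGroup (Fin 2) (ZMod M)) := Fintype.ofFinite _
  obtain ⟨P, Q, K, hA, hB, hC⟩ := h2 M hM
  have hi : ∀ i : {p // p ∈ M.primeFactors}, i.1.Prime ∧ i.1 ∣ M := fun i =>
    ⟨(Nat.mem_primeFactors.1 i.2).1, (Nat.mem_primeFactors.1 i.2).2.1⟩
  have hv := al_G_mem h4 hM hb
  have key := h1 (Matrix.SpecialLinearGroup (Fin 2) (ZMod M)) (al_V M)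
    (al_rho h3 hM) {p // p ∈ M.primeFactors} (fun i => P i.1) (fun i => Q i.1) (fun i => K i.1)
    Finset.univ.toList (Finset.nodup_toList _)
    (fun i => (hA i.1 (hi i).1 (hi i).2).1) (fun i => (hA i.1 (hi i).1 (hi i).2).2.1)
    (fun i => (hA i.1 (hi i).1 (hi i).2).2.2.1)
    (fun i j hij => hB i.1 j.1 (hi i).1 (hi i).2 (hi j).1 (hi j).2
      fun h => hij (Subtype.ext h))
    ⟨al_G M b, hv⟩
  have hQv : ∀ i : {p // p ∈ M.primeFactors}, ∀ x ∈ Q i.1,
      al_rho h3 hM x ⟨al_G M b, hv⟩ = ⟨al_G M b, hv⟩ := by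
    intro i x hx
    have hx' : (x⁻¹) 0 1 = 0 := (hA i.1 (hi i).1 (hi i).2).2.2.2.1 x⁻¹ (inv_mem hx)
    obtain ⟨g, hg⟩ := al_lift h3 hM x⁻¹
    refine Subtype.ext ?_
    rw [al_rho_apply h3 hM hg]
    refine al_G_sl hM hb g ?_
    rw [← ZMod.intCast_zmod_eq_zero_iff_dvd, ← al_red_apply, hg]
    exact hx'
  obtain ⟨w, hw1, hw2⟩ := key hQv (by
    intro e he
    refine Subtype.ext (funext fun z => ?_)
    by_cases hz : 0 < z.im
    · have h7 := al_prod h3 hM (fun i => K i.1)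
        (fun i => (hA i.1 (hi i).1 (hi i).2).2.2.2.2) e he ⟨al_G M b, hv⟩ b
        (fun z hz => al_G_pos _ _ hz) hb.sum Finset.univ.toList z hz
      refine h7.trans ?_
      have h8 : al_cut b (List.map Subtype.val
          (Finset.univ : Finset {p // p ∈ M.primeFactors}).toList) = fun _ => 0 := by
        funext n
        apply al_cut_zero
        by_cases h9 : Nat.Coprime n M
        · exact Or.inl (hcop n h9)
        · right
          obtain ⟨p, hp, hpn, hpM⟩ := Nat.Prime.not_coprime_iff_dvd.1 h9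
          refine ⟨p, ?_, hpn⟩
          rw [List.mem_map]
          exact ⟨⟨p, Nat.mem_primeFactors.2 ⟨hp, hpM, by omega⟩⟩,
            Finset.mem_toList.2 (Finset.mem_univ _), rfl⟩
      rw [h8]
      unfold qs
      simp
    · exact (al_mem_V.1 (Subtype.prop _)).1 z hz)
  have hfix : ∀ i : {p // p ∈ M.primeFactors},
      ∀ g : Matrix.SpecialLinearGroup (Fin 2) (ZMod M),
      ((M / i.1 : ℕ) : ZMod M) ∣ g 0 1 → al_rho h3 hM g (w i) = w i := by
    intro i g hg
    have h7 := hw2 i (Finset.mem_toList.2 (Finset.mem_univ i))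
    let S : Subgroup (Matrix.SpecialLinearGroup (Fin 2) (ZMod M)) :=
      { carrier := {x | al_rho h3 hM x (w i) = w i}
        mul_mem' := by
          intro x y hx hy
          show al_rho h3 hM (x * y) (w i) = w i
          have hx' : al_rho h3 hM x (w i) = w i := hx
          have hy' : al_rho h3 hM y (w i) = w i := hy
          rw [map_mul, Module.End.mul_apply, hy', hx']
        one_mem' := by
          show al_rho h3 hM 1 (w i) = w i
          rw [map_one, Module.End.one_apply]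
        inv_mem' := by
          intro x hx
          show al_rho h3 hM x⁻¹ (w i) = w i
          have hx' : al_rho h3 hM x (w i) = w i := hx
          have h8 : al_rho h3 hM x⁻¹ (al_rho h3 hM x (w i)) = w i := by
            rw [← Module.End.mul_apply, ← map_mul, inv_mul_cancel, map_one,
              Module.End.one_apply]
          rwa [hx'] at h8 }
    have h9 : P i.1 ⊔ ⨆ p' ∈ (M.primeFactors.erase i.1), Q p' ≤ S := by
      refine sup_le (fun x hx => h7.1 x hx) (iSup₂_le fun p' hp' => ?_)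
      rw [Finset.mem_erase] at hp'
      intro x hx
      exact h7.2 ⟨p', hp'.2⟩ (fun h => hp'.1 (congrArg Subtype.val h)) x hx
    exact h9 (hC i.1 (hi i).1 (hi i).2 g hg)
  have hlev : ∀ i : {p // p ∈ M.primeFactors}, ∃ c : ℕ → ℂ, Cusp (M / i.1) c ∧
      ∀ τ : ℂ, 0 < τ.im → qs c τ = (w i).1 (((M / i.1 : ℕ) : ℂ) * τ) := fun i =>
    al_level h3 h5 hM (hi i).1.one_le (hi i).2 (w i) (hfix i)
  choose c hc1 hc2 using hlev
  refine ⟨fun p => if h : p ∈ M.primeFactors then c ⟨p, h⟩ else 0, fun p hp => ?_, ?_⟩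
  · show Cusp (M / p) (if h : p ∈ M.primeFactors then c ⟨p, h⟩ else 0)
    rw [dif_pos hp]
    exact hc1 ⟨p, hp⟩
  · have hsum : ∀ τ : ℂ, 0 < τ.im → HasSum (fun n : ℕ =>
        (∑ i : {p // p ∈ M.primeFactors}, if i.1 ∣ n then c i (n / i.1) else 0) *
          exp (2 * (Real.pi : ℂ) * I * (n : ℂ) * τ)) (qs b τ) := by
      intro τ hτ
      have hM0 : (M : ℂ) ≠ 0 := by
        have : M ≠ 0 := by omega
        exact_mod_cast this
      have hMτ : 0 < ((M : ℂ) * τ).im := by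
        have : (0 : ℝ) < M := by exact_mod_cast hM
        simp only [mul_im, natCast_re, natCast_im, zero_mul, add_zero]
        positivity
      have e1 := hasSum_sum fun i (_ : i ∈ (Finset.univ : Finset {p // p ∈ M.primeFactors})) =>
        al_reindex (hi i).1.one_le (hc1 i) hτ
      have e2 : qs b τ = ∑ i : {p // p ∈ M.primeFactors}, qs (c i) (i.1 * τ) := by
        have e3 : qs b τ = al_G M b ((M : ℂ) * τ) := by
          rw [al_G_pos _ _ hMτ, mul_div_cancel_left₀ _ hM0]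
        have e4 : al_G M b = ∑ i : {p // p ∈ M.primeFactors}, (w i).1 := by
          have e5 := congrArg Subtype.val hw1
          rw [Finset.toList_toFinset] at e5
          rw [Submodule.coe_sum] at e5
          exact e5
        rw [e3, e4, Finset.sum_apply]
        refine Finset.sum_congr rfl fun i _ => ?_
        have hp0 : (0 : ℝ) < i.1 := by exact_mod_cast (hi i).1.pos
        rw [hc2 i _ (by
          simp only [mul_im, natCast_re, natCast_im, zero_mul, add_zero]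
          positivity)]
        rw [← mul_assoc, ← Nat.cast_mul, Nat.div_mul_cancel (hi i).2]
      rw [e2]
      have e3 : (fun n : ℕ =>
        (∑ i : {p // p ∈ M.primeFactors}, if i.1 ∣ n then c i (n / i.1) else 0) *
          exp (2 * (Real.pi : ℂ) * I * (n : ℂ) * τ)) = fun n : ℕ =>
          ∑ i : {p // p ∈ M.primeFactors}, (if i.1 ∣ n then c i (n / i.1) else 0) *
            exp (2 * (Real.pi : ℂ) * I * (n : ℂ) * τ) := by
        funext n
        rw [Finset.sum_mul]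
      rw [e3]
      exact e1
    have hb' := h6 b (fun n => ∑ i : {p // p ∈ M.primeFactors},
      if i.1 ∣ n then c i (n / i.1) else 0) (fun τ hτ => hb.sum τ hτ)
      (fun τ hτ => (hsum τ hτ).summable) (fun τ hτ => (hsum τ hτ).tsum_eq.symm)
    intro n
    rw [congrFun hb' n]
    rw [← Finset.sum_coe_sort M.primeFactors]
    refine Finset.sum_congr rfl fun i _ => ?_
    show _ = if i.1 ∣ n then (if h : i.1 ∈ M.primeFactors then c ⟨i.1, h⟩ else 0) (n / i.1) else 0
    rw [dif_pos i.2]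

end Pool.Agent.Helper96.MP
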