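import Pool.Agent.Helper96.MP.Defs

/-!
# MP_bde085_nt, module AL, first part: action of `SL₂(ℤ/M)` on forms for `Γ(M)`
-/

set_option autoImplicit false

namespace Pool.Agent.Helper96.MP

open Complex Filter Topology
open scoped MatrixGroups

/-! ## Möbius action -/

theorem al_det (g : SL(2, ℤ)) : (g 0 0 : ℤ) * g 1 1 - g 0 1 * g 1 0 = 1 := by
  have h := g.det_coe
  rw [Matrix.det_fin_two] at h
  exact h

theorem al_ne {c d : ℤ} (h : c ≠ 0 ∨ d ≠ 0) {z : ℂ} (hz : 0 < z.im) :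
    (c : ℂ) * z + (d : ℂ) ≠ 0 := by
  intro h0
  have him := congrArg Complex.im h0
  have hre := congrArg Complex.re h0
  simp only [add_im, mul_im, intCast_re, intCast_im, zero_mul, add_zero, zero_im] at him
  simp only [add_re, mul_re, intCast_re, intCast_im, zero_mul, sub_zero, zero_re] at hre
  have hc : (c : ℝ) = 0 := by
    rcases mul_eq_zero.1 him with h1 | h1
    · exact h1
    · exact absurd h1 hz.ne'
  rw [hc] at hre
  have hd : (d : ℝ) = 0 := by linarith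
  have hc' : c = 0 := by exact_mod_cast hc
  have hd' : d = 0 := by exact_mod_cast hd
  rcases h with h | h
  · exact h hc'
  · exact h hd'

theorem al_jj_ne (g : SL(2, ℤ)) {z : ℂ} (hz : 0 < z.im) : jj g z ≠ 0 := by
  refine al_ne ?_ hz
  by_contra h
  push Not at h
  have := al_det g
  rw [h.1, h.2] at this
  omega

theorem al_mob_im (g : SL(2, ℤ)) {z : ℂ} (hz : 0 < z.im) :
    (mob g z).im = z.im / ‖jj g z‖ ^ 2 := by
  have hj := al_jj_ne g hz
  have hdet := al_det g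
  have hdet' : ((g 0 0 : ℤ) : ℝ) * (g 1 1 : ℤ) - (g 0 1 : ℤ) * (g 1 0 : ℤ) = 1 := by
    exact_mod_cast hdet
  have hN : ‖jj g z‖ ^ 2 = normSq (jj g z) := (normSq_eq_norm_sq _).symm
  have hne : normSq (jj g z) ≠ 0 := fun h => hj (normSq_eq_zero.1 h)
  have e1 : mob g z = (((g 0 0 : ℤ) : ℂ) * z + ((g 0 1 : ℤ) : ℂ)) / jj g z := rfl
  rw [hN, e1, div_im]
  have e2 : (jj g z).re = ((g 1 0 : ℤ) : ℝ) * z.re + ((g 1 1 : ℤ) : ℝ) := by
    simp [jj]
  have e3 : (jj g z).im = ((g 1 0 : ℤ) : ℝ) * z.im := by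
    simp [jj]
  rw [e2, e3]
  simp only [add_im, mul_im, add_re, mul_re, intCast_re, intCast_im, zero_mul, add_zero, sub_zero]
  rw [← sub_div]
  congr 1
  linear_combination z.im * hdet'

theorem al_mob_pos (g : SL(2, ℤ)) {z : ℂ} (hz : 0 < z.im) : 0 < (mob g z).im := by
  rw [al_mob_im g hz]
  have := norm_pos_iff.2 (al_jj_ne g hz)
  positivity

theorem al_mul_apply (g h : SL(2, ℤ)) (i j : Fin 2) :
    (g * h) i j = g i 0 * h 0 j + g i 1 * h 1 j := by
  rw [Matrix.SpecialLinearGroup.coe_mul, Matrix.mul_apply, Fin.sum_univ_two]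

theorem al_jj_mul (g h : SL(2, ℤ)) {z : ℂ} (hz : 0 < z.im) :
    jj (g * h) z = jj g (mob h z) * jj h z := by
  have hj := al_jj_ne h hz
  have e1 : mob h z = (((h 0 0 : ℤ) : ℂ) * z + ((h 0 1 : ℤ) : ℂ)) / jj h z := rfl
  have e2 : jj g (mob h z) = ((g 1 0 : ℤ) : ℂ) * mob h z + ((g 1 1 : ℤ) : ℂ) := rfl
  rw [e2, e1, add_mul, mul_assoc, div_mul_cancel₀ _ hj]
  simp only [jj, al_mul_apply]
  push_cast
  ring

theorem al_mob_mul (g h : SL(2, ℤ)) {z : ℂ} (hz : 0 < z.im) :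
    mob (g * h) z = mob g (mob h z) := by
  have hj := al_jj_ne h hz
  have hj' := al_jj_ne g (al_mob_pos h hz)
  have e1 : mob h z = (((h 0 0 : ℤ) : ℂ) * z + ((h 0 1 : ℤ) : ℂ)) / jj h z := rfl
  have e2 : mob g (mob h z) =
    (((g 0 0 : ℤ) : ℂ) * mob h z + ((g 0 1 : ℤ) : ℂ)) / jj g (mob h z) := rfl
  have e3 : mob (g * h) z =
    ((((g * h) 0 0 : ℤ) : ℂ) * z + (((g * h) 0 1 : ℤ) : ℂ)) / jj (g * h) z := rfl
  rw [e3, al_jj_mul g h hz, e2, div_eq_div_iff (mul_ne_zero hj' hj) hj']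
  have e4 : mob h z * jj h z = ((h 0 0 : ℤ) : ℂ) * z + ((h 0 1 : ℤ) : ℂ) := by
    rw [e1, div_mul_cancel₀ _ hj]
  have e5 : jj h z = ((h 1 0 : ℤ) : ℂ) * z + ((h 1 1 : ℤ) : ℂ) := rfl
  simp only [al_mul_apply]
  push_cast
  linear_combination (-jj g (mob h z)) * ((g 0 0 : ℤ) : ℂ) * e4 -
    jj g (mob h z) * ((g 0 1 : ℤ) : ℂ) * e5

/-! ## The slash operator -/

open Classical in
/-- slash operator of weight two -/
noncomputable def al_sl (g : SL(2, ℤ)) (f : ℂ → ℂ) (z : ℂ) : ℂ :=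
  if 0 < z.im then (jj g z ^ 2)⁻¹ * f (mob g z) else 0

theorem al_sl_pos (g : SL(2, ℤ)) (f : ℂ → ℂ) {z : ℂ} (hz : 0 < z.im) :
    al_sl g f z = (jj g z ^ 2)⁻¹ * f (mob g z) := if_pos hz

theorem al_sl_neg (g : SL(2, ℤ)) (f : ℂ → ℂ) {z : ℂ} (hz : ¬ 0 < z.im) :
    al_sl g f z = 0 := if_neg hz

theorem al_sl_mul (g h : SL(2, ℤ)) (f : ℂ → ℂ) : al_sl (g * h) f = al_sl h (al_sl g f) := by
  funext z
  by_cases hz : 0 < z.im
  · rw [al_sl_pos _ _ hz, al_sl_pos _ _ hz, al_sl_pos _ _ (al_mob_pos h hz), al_jj_mul g h hz,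
      al_mob_mul g h hz, mul_pow, mul_inv]
    ring
  · rw [al_sl_neg _ _ hz, al_sl_neg _ _ hz]

/-- reduction modulo `M` -/
abbrev al_red (M : ℕ) : SL(2, ℤ) →* Matrix.SpecialLinearGroup (Fin 2) (ZMod M) :=
  Matrix.SpecialLinearGroup.map (Int.castRingHom (ZMod M))

theorem al_red_apply (M : ℕ) (g : SL(2, ℤ)) (i j : Fin 2) :
    al_red M g i j = ((g i j : ℤ) : ZMod M) := rfl

/-- forms for `Γ(M)` -/
def al_V (M : ℕ) : Submodule ℂ (ℂ → ℂ) where
  carrier := {f | (∀ z : ℂ, ¬ 0 < z.im → f z = 0) ∧ DifferentiableOn ℂ f UH ∧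
    (∀ g : SL(2, ℤ), al_red M g = 1 → al_sl g f = f) ∧ ∃ B : ℝ, ∀ z ∈ UH, z.im * ‖f z‖ ≤ B}
  zero_mem' := by
    refine ⟨fun z _ => rfl, differentiableOn_const 0, fun g _ => ?_, 0, fun z _ => by simp⟩
    funext z
    by_cases hz : 0 < z.im
    · rw [al_sl_pos _ _ hz]
      simp
    · rw [al_sl_neg _ _ hz]
      rfl
  add_mem' := by
    rintro f f' ⟨h1, h2, h3, B, hB⟩ ⟨h1', h2', h3', B', hB'⟩
    refine ⟨fun z hz => ?_, h2.add h2', fun g hg => ?_, B + B', fun z hz => ?_⟩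
    · show f z + f' z = 0
      rw [h1 z hz, h1' z hz, add_zero]
    · funext z
      have e1 := congrFun (h3 g hg) z
      have e2 := congrFun (h3' g hg) z
      by_cases hz : 0 < z.im
      · rw [al_sl_pos _ _ hz] at e1 e2 ⊢
        show (jj g z ^ 2)⁻¹ * (f (mob g z) + f' (mob g z)) = f z + f' z
        rw [mul_add, e1, e2]
      · rw [al_sl_neg _ _ hz] at e1 e2 ⊢
        show 0 = f z + f' z
        rw [← e1, ← e2, add_zero]
    · have e1 := hB z hz
      have e2 := hB' z hz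
      have hz' : 0 < z.im := hz
      have e3 := norm_add_le (f z) (f' z)
      show z.im * ‖f z + f' z‖ ≤ B + B'
      nlinarith
  smul_mem' := by
    rintro c f ⟨h1, h2, h3, B, hB⟩
    refine ⟨fun z hz => ?_, h2.const_smul c, fun g hg => ?_, ‖c‖ * B, fun z hz => ?_⟩
    · show c * f z = 0
      rw [h1 z hz, mul_zero]
    · funext z
      have e1 := congrFun (h3 g hg) z
      by_cases hz : 0 < z.im
      · rw [al_sl_pos _ _ hz] at e1 ⊢
        show (jj g z ^ 2)⁻¹ * (c * f (mob g z)) = c * f z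
        rw [← e1]
        ring
      · rw [al_sl_neg _ _ hz] at e1 ⊢
        show 0 = c * f z
        rw [← e1, mul_zero]
    · have e1 := hB z hz
      show z.im * ‖c * f z‖ ≤ ‖c‖ * B
      rw [norm_mul]
      have := norm_nonneg c
      nlinarith

theorem al_mem_V {M : ℕ} {f : ℂ → ℂ} : f ∈ al_V M ↔ (∀ z : ℂ, ¬ 0 < z.im → f z = 0) ∧
    DifferentiableOn ℂ f UH ∧ (∀ g : SL(2, ℤ), al_red M g = 1 → al_sl g f = f) ∧
    ∃ B : ℝ, ∀ z ∈ UH, z.im * ‖f z‖ ≤ B := Iff.rfl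

/-- the slash operator depends only on the residue class -/
theorem al_sl_congr {M : ℕ} {f : ℂ → ℂ} (hf : f ∈ al_V M) {g h : SL(2, ℤ)}
    (hgh : al_red M g = al_red M h) : al_sl g f = al_sl h f := by
  have e1 : al_red M (g * h⁻¹) = 1 := by
    rw [map_mul, map_inv, hgh, mul_inv_cancel]
  have e2 := (al_mem_V.1 hf).2.2.1 _ e1
  have e3 : g = (g * h⁻¹) * h := by group
  rw [e3, al_sl_mul, e2]

theorem al_isOpen : IsOpen UH := isOpen_lt continuous_const Complex.continuous_im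

theorem al_sl_mem {M : ℕ} {f : ℂ → ℂ} (hf : f ∈ al_V M) (g : SL(2, ℤ)) : al_sl g f ∈ al_V M := by
  obtain ⟨h1, h2, h3, B, hB⟩ := al_mem_V.1 hf
  refine al_mem_V.2 ⟨fun z hz => al_sl_neg _ _ hz, ?_, fun h hh => ?_, B, fun z hz => ?_⟩
  · intro z hz
    have hz' : 0 < z.im := hz
    have hj := al_jj_ne g hz'
    have d1 : DifferentiableAt ℂ (fun w => jj g w) z := by
      unfold jj
      fun_prop
    have d2 : DifferentiableAt ℂ (fun w => mob g w) z := by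
      have e : (fun w => mob g w) = fun w => (((g 0 0 : ℤ) : ℂ) * w + ((g 0 1 : ℤ) : ℂ)) / jj g w :=
        rfl
      rw [e]
      exact DifferentiableAt.div (by fun_prop) d1 hj
    have d3 : DifferentiableAt ℂ f (mob g z) :=
      (h2 _ (al_mob_pos g hz')).differentiableAt (al_isOpen.mem_nhds (al_mob_pos g hz'))
    have d4 : DifferentiableAt ℂ (fun w => (jj g w ^ 2)⁻¹ * f (mob g w)) z :=
      ((d1.pow 2).inv (pow_ne_zero 2 hj)).mul (DifferentiableAt.comp z d3 d2)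
    refine DifferentiableAt.differentiableWithinAt (d4.congr_of_eventuallyEq ?_)
    filter_upwards [al_isOpen.mem_nhds hz] with w hw
    exact al_sl_pos _ _ hw
  · rw [← al_sl_mul]
    refine al_sl_congr hf ?_
    rw [map_mul, hh, mul_one]
  · have hz' : 0 < z.im := hz
    have hj := norm_pos_iff.2 (al_jj_ne g hz')
    have e1 := hB (mob g z) (al_mob_pos g hz')
    rw [al_mob_im g hz'] at e1
    rw [al_sl_pos _ _ hz', norm_mul, norm_inv, norm_pow]
    calc z.im * ((‖jj g z‖ ^ 2)⁻¹ * ‖f (mob g z)‖) = z.im / ‖jj g z‖ ^ 2 * ‖f (mob g z)‖ := by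
          ring
      _ ≤ B := e1

theorem al_lift (hS : ST_SURJ) {M : ℕ} (hM : 1 ≤ M)
    (x : Matrix.SpecialLinearGroup (Fin 2) (ZMod M)) : ∃ g : SL(2, ℤ), al_red M g = x := by
  have : NeZero M := ⟨by omega⟩
  obtain ⟨p, hp⟩ := ZMod.intCast_surjective (x 0 0)
  obtain ⟨q, hq⟩ := ZMod.intCast_surjective (x 0 1)
  obtain ⟨r, hr⟩ := ZMod.intCast_surjective (x 1 0)
  obtain ⟨s, hs⟩ := ZMod.intCast_surjective (x 1 1)
  have hdet : (M : ℤ) ∣ p * s - q * r - 1 := by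
    rw [← ZMod.intCast_zmod_eq_zero_iff_dvd]
    push_cast
    rw [hp, hq, hr, hs]
    have h := x.det_coe
    rw [Matrix.det_fin_two] at h
    rw [h, sub_self]
  obtain ⟨p', q', r', s', h1, h2, h3, h4, h5⟩ := (hS M hM).2 p q r s hdet
  have key : ∀ {a b : ℤ} {y : ZMod M}, (a : ZMod M) = y → (M : ℤ) ∣ b - a → (b : ZMod M) = y := by
    intro a b y hy hd
    rw [← hy]
    rw [← ZMod.intCast_zmod_eq_zero_iff_dvd] at hd
    push_cast at hd
    exact sub_eq_zero.1 hd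
  refine ⟨⟨!![p', q'; r', s'], by rw [Matrix.det_fin_two]; simpa using h1⟩, ?_⟩
  ext i j
  fin_cases i <;> fin_cases j
  · exact key hp h2
  · exact key hq h3
  · exact key hr h4
  · exact key hs h5

end Pool.Agent.Helper96.MP
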