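import Pool.Agent.Helper9.MP.Amp

/-!
# MP_bde085_nt, module MV: mean value inequality for `|f|²` on discs
-/

set_option autoImplicit false

namespace Pool.Agent.Helper96.MP

open Complex MeasureTheory Filter Topology

theorem mv_circle {f : ℂ → ℂ} {c : ℂ} {r s : ℝ} (hs : 0 < s) (hsr : s < r)
    (hf : DifferentiableOn ℂ f (Metric.ball c r)) :
    ‖f c‖ ^ 2 * (2 * Real.pi) ≤ ∫ θ in (-Real.pi)..Real.pi, ‖f (circleMap c s θ)‖ ^ 2 := by
  have hpi := Real.pi_pos
  have h1 : DifferentiableOn ℂ (fun z => f z ^ 2) (Metric.ball c r) := hf.pow 2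
  have h2 : DiffContOnCl ℂ (fun z => f z ^ 2) (Metric.ball c |s|) := by
    rw [abs_of_pos hs]
    exact h1.diffContOnCl_ball (Metric.closedBall_subset_ball hsr)
  have h3 := h2.circleAverage
  rw [Real.circleAverage_eq_integral_add (-Real.pi),
    intervalIntegral.integral_comp_add_right (fun θ => f (circleMap c s θ) ^ 2)] at h3
  have e1 : (0 : ℝ) + -Real.pi = -Real.pi := by ring
  have e2 : 2 * Real.pi + -Real.pi = Real.pi := by ring
  rw [e1, e2] at h3
  have h4 := congrArg norm h3
  rw [norm_smul, norm_pow, Real.norm_eq_abs, abs_of_pos (by positivity)] at h4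
  have h5 : ‖∫ θ in (-Real.pi)..Real.pi, f (circleMap c s θ) ^ 2‖ ≤
      ∫ θ in (-Real.pi)..Real.pi, ‖f (circleMap c s θ)‖ ^ 2 := by
    have h6 := intervalIntegral.norm_integral_le_integral_norm (μ := volume)
      (f := fun θ => f (circleMap c s θ) ^ 2) (by linarith : -Real.pi ≤ Real.pi)
    simpa only [norm_pow] using h6
  rw [← h4]
  have h7 : (2 * Real.pi)⁻¹ * ‖∫ θ in (-Real.pi)..Real.pi, f (circleMap c s θ) ^ 2‖ *
      (2 * Real.pi) = ‖∫ θ in (-Real.pi)..Real.pi, f (circleMap c s θ) ^ 2‖ := by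
    field_simp
  rw [h7]
  exact h5

theorem mv_lcircle {f : ℂ → ℂ} {c : ℂ} {r s : ℝ} (hs : 0 < s) (hsr : s < r)
    (hf : DifferentiableOn ℂ f (Metric.ball c r)) :
    ENNReal.ofReal (‖f c‖ ^ 2 * (2 * Real.pi)) ≤
      ∫⁻ θ in Set.Ioo (-Real.pi) Real.pi, ENNReal.ofReal (‖f (circleMap c s θ)‖ ^ 2) := by
  have hpi := Real.pi_pos
  have h1 := mv_circle hs hsr hf
  have hcont : Continuous (fun θ : ℝ => ‖f (circleMap c s θ)‖ ^ 2) := by
    refine Continuous.pow (Continuous.norm ?_) 2
    refine ContinuousOn.comp_continuous hf.continuousOn (continuous_circleMap c s) fun θ => ?_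
    rw [Metric.mem_ball, dist_eq_norm, circleMap_sub_center, norm_circleMap_zero, abs_of_pos hs]
    exact hsr
  rw [intervalIntegral.integral_of_le (by linarith), integral_Ioc_eq_integral_Ioo] at h1
  rw [← ofReal_integral_eq_lintegral_ofReal]
  · exact ENNReal.ofReal_le_ofReal h1
  · exact (hcont.integrableOn_Icc (a := -Real.pi) (b := Real.pi)).mono_set
      Set.Ioo_subset_Icc_self
  · exact Filter.Eventually.of_forall fun θ => by positivity

theorem mv_lint {f : ℂ → ℂ} {c : ℂ} {r : ℝ} (hr : 0 < r)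
    (hf : DifferentiableOn ℂ f (Metric.ball c r)) :
    ENNReal.ofReal (‖f c‖ ^ 2 * (Real.pi * r ^ 2)) ≤
      ∫⁻ z in Metric.ball c r, ENNReal.ofReal (‖f z‖ ^ 2) := by
  classical
  have hpi := Real.pi_pos
  obtain ⟨F, hF⟩ : ∃ F : ℂ → ENNReal, F = (Metric.ball c r).indicator
    (fun z => ENNReal.ofReal (‖f z‖ ^ 2)) := ⟨_, rfl⟩
  have hFm : Measurable F := by
    rw [hF, ← Set.piecewise_eq_indicator]
    refine ContinuousOn.measurable_piecewise ?_ continuousOn_const measurableSet_ball
    exact ENNReal.continuous_ofReal.comp_continuousOn ((hf.continuousOn.norm).pow 2)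
  have h1 : ∫⁻ z in Metric.ball c r, ENNReal.ofReal (‖f z‖ ^ 2) = ∫⁻ z, F (z + c) := by
    rw [lintegral_add_right_eq_self F c, hF, lintegral_indicator measurableSet_ball]
  have h2 : ∫⁻ z, F (z + c) = ∫⁻ s in Set.Ioi (0 : ℝ), ∫⁻ θ in Set.Ioo (-Real.pi) Real.pi,
      ENNReal.ofReal s * F (circleMap c s θ) := by
    rw [← Complex.lintegral_comp_polarCoord_symm (fun z => F (z + c))]
    have h3 : polarCoord.target = Set.Ioi (0 : ℝ) ×ˢ Set.Ioo (-Real.pi) Real.pi := rfl
    rw [h3, Measure.volume_eq_prod, ← Measure.prod_restrict, lintegral_prod]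
    · refine lintegral_congr fun s => lintegral_congr fun θ => ?_
      rw [smul_eq_mul]
      congr 2
      rw [Complex.polarCoord_symm_apply, circleMap, Complex.exp_mul_I, Complex.ofReal_cos,
        Complex.ofReal_sin]
      ring
    · refine Measurable.aemeasurable ?_
      refine Measurable.mul (ENNReal.measurable_ofReal.comp measurable_fst) (hFm.comp ?_)
      simp only [Complex.polarCoord_symm_apply]
      fun_prop
  rw [h1, h2]
  calc ENNReal.ofReal (‖f c‖ ^ 2 * (Real.pi * r ^ 2))
      = ∫⁻ s in Set.Ioo (0 : ℝ) r, ENNReal.ofReal (s * (‖f c‖ ^ 2 * (2 * Real.pi))) := by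
        rw [← ofReal_integral_eq_lintegral_ofReal]
        · rw [← integral_Ioc_eq_integral_Ioo, ← intervalIntegral.integral_of_le hr.le,
            intervalIntegral.integral_mul_const, integral_id]
          congr 1
          ring
        · have hc : Continuous (fun s : ℝ => s * (‖f c‖ ^ 2 * (2 * Real.pi))) := by fun_prop
          exact (hc.integrableOn_Icc (a := 0) (b := r)).mono_set Set.Ioo_subset_Icc_self
        · filter_upwards [ae_restrict_mem measurableSet_Ioo] with s hs
          have := hs.1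
          show 0 ≤ s * (‖f c‖ ^ 2 * (2 * Real.pi))
          positivity
    _ ≤ ∫⁻ s in Set.Ioo (0 : ℝ) r, ∫⁻ θ in Set.Ioo (-Real.pi) Real.pi,
          ENNReal.ofReal s * F (circleMap c s θ) := by
        refine setLIntegral_mono_ae' measurableSet_Ioo
          (Filter.Eventually.of_forall fun s hs => ?_)
        rw [ENNReal.ofReal_mul hs.1.le, lintegral_const_mul' _ _ ENNReal.ofReal_ne_top]
        refine mul_le_mul_right (le_trans (mv_lcircle hs.1 hs.2 hf) (le_of_eq ?_)) _
        refine lintegral_congr fun θ => ?_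
        rw [hF, Set.indicator_of_mem]
        rw [Metric.mem_ball, dist_eq_norm, circleMap_sub_center, norm_circleMap_zero, abs_of_pos hs.1]
        exact hs.2
    _ ≤ ∫⁻ s in Set.Ioi (0 : ℝ), ∫⁻ θ in Set.Ioo (-Real.pi) Real.pi,
          ENNReal.ofReal s * F (circleMap c s θ) :=
        lintegral_mono_set Set.Ioo_subset_Ioi_self

theorem st_MV : ST_MV := by
  intro f c r hr hf hint
  have h1 := mv_lint hr hf
  rw [← ofReal_integral_eq_lintegral_ofReal hint
    (Filter.Eventually.of_forall fun z => by positivity)] at h1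
  refine (ENNReal.ofReal_le_ofReal_iff ?_).1 h1
  exact integral_nonneg fun z => by positivity

end Pool.Agent.Helper96.MP
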